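import Pool.Agent.H51.QT.Base
import Pool.Agent.H19.QT.Deg
import Pool.Agent.H23.QT.Dist
import Pool.Agent.H89.IP.FrD

/-!
# QT.Dist : good primes, prime to a given number, with two distinct Frobenius eigenvalues
-/

set_option autoImplicit false

open scoped Pointwise NumberField
open Matrix IsDedekindDomain Pool.Agent.H71.Patch Pool.Agent.H89.IP Pool.Agent.H51.QT
open Pool.Agent.H19.QT

namespace Pool.Agent.H1.QT

variable {F : Type} [Field F] [NumberField F] {K : IntermediateField F (AlgebraicClosure F)}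

private theorem Dist_acts_npow {Q : Ideal (Zbar F)} (hQ : Q.IsPrime) {n : ℕ} {g : GalK F}
    (h : Acts Q g n) (k : ℕ) : Acts Q (g ^ k) (n ^ k) := by
  induction k with
  | zero =>
    intro x
    rw [pow_zero, pow_zero, one_smul, pow_one, sub_self]
    exact Q.zero_mem
  | succ k ih =>
    rw [pow_succ, pow_succ]
    exact acts_mul hQ ih h

/-- two dimensional irreducible representations have elements with distinct eigenvalues -/
theorem exists_ne {Γ E : Type*} [Group Γ] [Field E] [CharZero E] (ρ : Γ →* GL (Fin 2) E)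
    (h : Irred ρ) : ∃ g, (ρ g).val.trace ^ 2 ≠ 4 * (ρ g).val.det := by
  obtain ⟨g, hg⟩ := Pool.Agent.H23.QT.exists_disc (two_ne_zero) ρ h
  exact ⟨g, sub_ne_zero.1 hg⟩

private theorem Dist_isOpen {A E : Type*} [Group A] [TopologicalSpace A] [Field E]
    [TopologicalSpace E] [IsTopologicalRing E] [T2Space E] (σ : A →* GL (Fin 2) E)
    (hc : Continuous σ) : IsOpen {g : A | Pool.Agent.H23.QT.disc (σ g).val ≠ 0} := by
  have h1 : Continuous fun g : A => (σ g).val := Units.continuous_val.comp hc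
  have hcont : Continuous fun g : A => Pool.Agent.H23.QT.disc (σ g).val :=
    ((h1.matrix_trace).pow 2).sub (continuous_const.mul h1.matrix_det)
  exact isOpen_ne.preimage hcont

/-- the same statement over any topological field of characteristic zero -/
private theorem Dist_abs [FiniteDimensional F K] {E : Type*} [Field E] [CharZero E]
    [TopologicalSpace E] [IsTopologicalRing E] [T2Space E] (n : Ideal (𝓞 K)) (hn : n ≠ ⊥)
    (a b : HeightOneSpectrum (𝓞 K) → E) (l : ℕ) (hl : l ≠ 0)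
    (σ : K.fixingSubgroup →* GL (Fin 2) E) (hc : Continuous σ)
    (hσ : ∀ v Q, Over K v Q → ¬ n ≤ v.asIdeal → (l : 𝓞 K) ∉ v.asIdeal →
      (∀ g : K.fixingSubgroup, Acts Q g 1 → σ g = 1) ∧
      ∀ g : K.fixingSubgroup, Acts Q g (nm v) →
        (σ g).val.trace = a v ∧ (σ g).val.det = b v)
    (hi : Irred σ) (p : ℕ) (hp : p ≠ 0) :
    ∃ v : HeightOneSpectrum (𝓞 K), ¬ n ≤ v.asIdeal ∧ (p : 𝓞 K) ∉ v.asIdeal ∧
      a v ^ 2 - 4 * b v ≠ 0 := by
  have hopen := Dist_isOpen σ hc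
  have hK : IsOpen (K.fixingSubgroup : Set (GalK F)) := K.fixingSubgroup_isOpen
  have hU : IsOpen ((fun g : K.fixingSubgroup => (g : GalK F)) ''
      {g : K.fixingSubgroup | Pool.Agent.H23.QT.disc (σ g).val ≠ 0}) :=
    hK.isOpenMap_subtype_val _ hopen
  obtain ⟨g0, hg0⟩ := Pool.Agent.H23.QT.exists_disc (two_ne_zero) σ hi
  have hS1 := finite_bad n hn
  have hS2 := finite_l (F := F) p hp
  have hS3 := finite_l (F := F) l hl
  have hdense := frobPow_dense F ((hS1.union hS2).union hS3)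
  obtain ⟨x, hxU, hxF⟩ := hdense.inter_open_nonempty _ hU ⟨g0, g0, hg0, rfl⟩
  obtain ⟨g, hg, rfl⟩ := hxU
  obtain ⟨u, hu, Q, hQ, φ, hφ, k, -, e⟩ := hxF
  rw [Set.mem_union, Set.mem_union, not_or, not_or] at hu
  obtain ⟨⟨hu1, hu2⟩, hu3⟩ := hu
  obtain ⟨v, hv⟩ := over_exists K hQ
  have hlev : ¬ n ≤ v.asIdeal := fun h => hu1 ⟨v, Q, hQ, hv, h⟩
  have hpv : (p : 𝓞 K) ∉ v.asIdeal := fun h => hu2 ((mem_iff hQ hv p).2 h)
  have hlv : (l : 𝓞 K) ∉ v.asIdeal := fun h => hu3 ((mem_iff hQ hv l).2 h)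
  have hgood := hσ v Q hv hlev hlv
  have hgk : Acts Q (g : GalK F) (nm u ^ k) := by
    have h1 := Dist_acts_npow hQ.1 ((acts_frob hQ).1 hφ) k
    rw [← e] at h1
    exact h1
  obtain ⟨m, hm⟩ := acts_pow hQ hv (g : GalK F) g.2 k hgk
  obtain ⟨ψ0, hψK, hψ0⟩ := exists_frob hv
  obtain ⟨ψ, hψe⟩ : ∃ ψ : K.fixingSubgroup, (ψ : GalK F) = ψ0 := ⟨⟨ψ0, hψK⟩, rfl⟩
  have hψ : Acts Q (ψ : GalK F) (nm v) := by rw [hψe]; exact hψ0
  have hψm : Acts Q ((ψ ^ m : K.fixingSubgroup) : GalK F) (nm v ^ m) := by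
    rw [Subgroup.coe_pow]
    exact Dist_acts_npow hQ.1 hψ m
  have hgk' : Acts Q (g : GalK F) (nm v ^ m) := by rw [← hm]; exact hgk
  have hin : Acts Q (((ψ ^ m)⁻¹ * g : K.fixingSubgroup) : GalK F) 1 := by
    rw [Subgroup.coe_mul, Subgroup.coe_inv]
    exact acts_inv_mul hQ.1 hψm hgk'
  have h2 : σ ((ψ ^ m)⁻¹ * g) = 1 := hgood.1 _ hin
  have h3 : σ g = σ ψ ^ m := by
    rw [map_mul, map_inv, map_pow] at h2
    exact (inv_mul_eq_one.1 h2).symm
  have h4 : Pool.Agent.H23.QT.disc ((σ ψ).val ^ m) ≠ 0 := by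
    rw [← Units.val_pow_eq_pow_val, ← h3]
    exact hg
  have h5 := Pool.Agent.H23.QT.disc_pow _ _ h4
  obtain ⟨h6, h7⟩ := hgood.2 ψ hψ
  rw [Pool.Agent.H23.QT.disc, h6, h7] at h5
  exact ⟨v, hlev, hpv, h5⟩

theorem dist (𝒦 : Known K) (θ : 𝒦.Eig) {l : ℕ} [Fact l.Prime] (j : Qb →+* PadicAlgCl l)
    (σ : K.fixingSubgroup →* GL (Fin 2) (PadicAlgCl l)) (hc : Continuous σ)
    (hσ : Good 𝒦 θ j σ) (hi : Irred σ) (p : ℕ) (hp : p.Prime) :
    ∃ v : HeightOneSpectrum (𝓞 K), ¬ 𝒦.lev θ ≤ v.asIdeal ∧ (p : 𝓞 K) ∉ v.asIdeal ∧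
      𝒦.T θ v ^ 2 ≠ 4 * (𝒦.S θ v * (nm v : Qb)) := by
  have hfd : FiniteDimensional F K :=
    FiniteDimensional.of_finrank_pos (by rw [𝒦.deg]; exact two_pos)
  have hlp : l ≠ 0 := (Fact.out : l.Prime).ne_zero
  obtain ⟨v, h1, h2, h3⟩ := Dist_abs (𝒦.lev θ) (𝒦.lev_ne θ) (fun v => j (𝒦.T θ v))
    (fun v => j (𝒦.S θ v * (nm v : Qb))) l hlp σ hc hσ hi p hp.ne_zero
  refine ⟨v, h1, h2, fun h4 => h3 ?_⟩
  have h5 : j (𝒦.T θ v ^ 2) = j (4 * (𝒦.S θ v * (nm v : Qb))) := congrArg j h4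
  rw [map_pow, map_mul, map_ofNat] at h5
  exact sub_eq_zero.2 h5

end Pool.Agent.H1.QT
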